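import Pool.Agent.Run7.h404.FL.Iface

set_option autoImplicit false

/-!
# Project FL, piece EMB: the orbits are embedded (Baire)
-/

namespace Run7.h437.FL

open Run7.h404.FL Set Topology Filter

theorem t_EMB : S_EMB := by
  intro Q _ Φ p hF x ε hε
  have hcl : IsClosed (p ⁻¹' {p x}) := isClosed_singleton.preimage hF.pcont
  have : CompleteSpace (p ⁻¹' {p x} : Set E5) := hcl.completeSpace_coe
  have hne : Nonempty (p ⁻¹' {p x} : Set E5) := ⟨⟨x, rfl⟩⟩
  have hpΦ : ∀ (t : ℝ) (y : E5), p (Φ t y) = p y := fun t y => ((hF.fib y (Φ t y)).2 ⟨t, rfl⟩).symm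
  have hΦt : ∀ t : ℝ, Continuous (Φ t) := fun t =>
    hF.cont.comp (continuous_const.prodMk continuous_id)
  have hΦx : Continuous fun t : ℝ => Φ t x := hF.cont.comp (continuous_id.prodMk continuous_const)
  let f : ℤ → Set (p ⁻¹' {p x} : Set E5) := fun k =>
    Subtype.val ⁻¹' ((fun t : ℝ => Φ t x) '' Icc ((k : ℝ) * (ε / 4)) (((k : ℝ) + 1) * (ε / 4)))
  have hfc : ∀ k, IsClosed (f k) := fun k =>
    ((isCompact_Icc.image hΦx).isClosed).preimage continuous_subtype_val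
  have hfu : ⋃ k, f k = univ := by
    rw [eq_univ_iff_forall]
    rintro ⟨y, hy⟩
    obtain ⟨t, ht⟩ := (hF.fib x y).1 (by simpa using (show p y = p x from hy).symm)
    rw [mem_iUnion]
    have h4 : 0 < ε / 4 := by positivity
    refine ⟨⌊t / (ε / 4)⌋, t, ⟨?_, ?_⟩, ht⟩
    · have := Int.floor_le (t / (ε / 4))
      calc (⌊t / (ε / 4)⌋ : ℝ) * (ε / 4) ≤ t / (ε / 4) * (ε / 4) :=
            mul_le_mul_of_nonneg_right this h4.le
        _ = t := by field_simp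
    · have := (Int.lt_floor_add_one (t / (ε / 4))).le
      calc t = t / (ε / 4) * (ε / 4) := by field_simp
        _ ≤ ((⌊t / (ε / 4)⌋ : ℝ) + 1) * (ε / 4) := mul_le_mul_of_nonneg_right this h4.le
  obtain ⟨k, ⟨c₀, hc₀⟩⟩ := nonempty_interior_of_iUnion_of_closed hfc hfu
  obtain ⟨V, hVo, hV⟩ := isOpen_induced_iff.1 (isOpen_interior (s := f k))
  obtain ⟨t₀, ht₀, hc⟩ := interior_subset hc₀
  have hxV : Φ t₀ x ∈ V := by
    have : c₀ ∈ Subtype.val ⁻¹' V := by rw [hV]; exact hc₀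
    have h2 : (c₀ : E5) ∈ V := this
    rw [← hc] at h2
    exact h2
  refine ⟨(Φ t₀) ⁻¹' V, (hVo.preimage (hΦt t₀)).mem_nhds hxV, ?_⟩
  intro y hy hpy
  have hmem : (⟨Φ t₀ y, by
      show p (Φ t₀ y) = p x
      rw [hpΦ, hpy]⟩ : (p ⁻¹' {p x} : Set E5)) ∈ interior (f k) := by
    rw [← hV]
    exact hy
  obtain ⟨t, ht, hty⟩ := interior_subset hmem
  have hty' : Φ t x = Φ t₀ y := hty
  refine ⟨-t₀ + t, ?_, ?_⟩
  · rw [abs_lt]
    obtain ⟨h1, h2⟩ := ht
    obtain ⟨h3, h4⟩ := ht₀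
    constructor <;> nlinarith
  · rw [hF.add, hty', ← hF.add, neg_add_cancel, hF.zero]

end Run7.h437.FL
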