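import Pool.Agent.Run7.h404.FL.Iface

set_option autoImplicit false

/-!
# Project FL, piece SH: closed 1-cochains on the box shell of `ℝ⁵` are exact
-/

namespace Run7.h437.FL

open Run7.h404.FL Set Topology Filter

/-- locally constant difference on a preconnected open set -/
theorem const_of_pr {S : Set E5} (hS : IsOpen S) (hc : IsPreconnected S) {b : E5 → E5 → ℝ}
    {f g : E5 → ℝ} (hf : ∀ x ∈ S, Pr f b x) (hg : ∀ x ∈ S, Pr g b x) :
    ∃ k : ℝ, ∀ x ∈ S, f x = g x + k := by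
  rcases S.eq_empty_or_nonempty with rfl | ⟨x₀, hx₀⟩
  · exact ⟨0, fun x hx => absurd hx (notMem_empty x)⟩
  have hloc : ∀ x ∈ S, ∃ U ∈ 𝓝 x, U ⊆ S ∧ ∀ y ∈ U, f y - g y = f x - g x := by
    intro x hx
    obtain ⟨U, hU, h1⟩ := hf x hx
    obtain ⟨V, hV, h2⟩ := hg x hx
    refine ⟨U ∩ V ∩ S, inter_mem (inter_mem hU hV) (hS.mem_nhds hx), inter_subset_right, ?_⟩
    rintro y ⟨⟨hy1, hy2⟩, -⟩
    have h3 := h1 x (mem_of_mem_nhds hU) y hy1
    have h4 := h2 x (mem_of_mem_nhds hV) y hy2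
    linarith
  set k := f x₀ - g x₀ with hk
  have hA : IsOpen {x | x ∈ S ∧ f x - g x = k} := by
    rw [isOpen_iff_mem_nhds]
    rintro x ⟨hx, hxk⟩
    obtain ⟨U, hU, hUS, h⟩ := hloc x hx
    exact mem_of_superset hU fun y hy => ⟨hUS hy, by rw [h y hy]; exact hxk⟩
  have hB : IsOpen {x | x ∈ S ∧ f x - g x ≠ k} := by
    rw [isOpen_iff_mem_nhds]
    rintro x ⟨hx, hxk⟩
    obtain ⟨U, hU, hUS, h⟩ := hloc x hx
    exact mem_of_superset hU fun y hy => ⟨hUS hy, by rw [h y hy]; exact hxk⟩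
  have hcov : S ⊆ {x | x ∈ S ∧ f x - g x = k} ∪ {x | x ∈ S ∧ f x - g x ≠ k} := by
    intro x hx
    by_cases h : f x - g x = k
    · exact Or.inl ⟨hx, h⟩
    · exact Or.inr ⟨hx, h⟩
  have hdis : S ∩ ({x | x ∈ S ∧ f x - g x = k} ∩ {x | x ∈ S ∧ f x - g x ≠ k}) = ∅ := by
    ext x
    constructor
    · rintro ⟨-, ⟨-, h1⟩, -, h2⟩
      exact absurd h1 h2
    · intro h
      exact absurd h (notMem_empty x)
  rcases isPreconnected_iff_subset_of_disjoint.1 hc _ _ hA hB hcov hdis with h | h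
  · exact ⟨k, fun x hx => by linarith [(h hx).2]⟩
  · exact absurd hk.symm (h hx₀).2

/-- Mayer-Vietoris for 1-cochains -/
theorem mv {U V : Set E5} (hU : IsOpen U) (hV : IsOpen V) (hc : IsPreconnected (U ∩ V))
    {b : E5 → E5 → ℝ} (hf : ∃ f : E5 → ℝ, ∀ x ∈ U, Pr f b x) (hg : ∃ g : E5 → ℝ, ∀ x ∈ V, Pr g b x) :
    ∃ h : E5 → ℝ, ∀ x ∈ U ∪ V, Pr h b x := by
  classical
  obtain ⟨f, hf⟩ := hf
  obtain ⟨g, hg⟩ := hg
  obtain ⟨k, hk⟩ := const_of_pr (hU.inter hV) hc (fun x hx => hf x hx.1) (fun x hx => hg x hx.2)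
  refine ⟨fun y => if y ∈ U then f y else g y + k, ?_⟩
  rintro x (hx | hx)
  · obtain ⟨W, hW, h⟩ := hf x hx
    refine ⟨W ∩ U, inter_mem hW (hU.mem_nhds hx), ?_⟩
    rintro y ⟨hy, hyU⟩ z ⟨hz, hzU⟩
    simp only [hyU, hzU, if_true]
    exact h y hy z hz
  · obtain ⟨W, hW, h⟩ := hg x hx
    have hval : ∀ y ∈ V, (if y ∈ U then f y else g y + k) = g y + k := by
      intro y hy
      by_cases hyU : y ∈ U
      · rw [if_pos hyU]; exact hk y ⟨hyU, hy⟩
      · rw [if_neg hyU]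
    refine ⟨W ∩ V, inter_mem hW (hV.mem_nhds hx), ?_⟩
    rintro y ⟨hy, hyV⟩ z ⟨hz, hzV⟩
    show b y z = (if z ∈ U then f z else g z + k) - (if y ∈ U then f y else g y + k)
    rw [hval y hyV, hval z hzV, h y hy z hz]
    ring

/-- the sign of a Boolean -/
def sg (s : Bool) : ℝ := if s then 1 else -1

theorem sg_sq (s : Bool) : sg s * sg s = 1 := by
  cases s <;> simp [sg]

/-- the piece `C(j, s)` -/
def Cj (R R' : ℝ) (j : Fin 5) (s : Bool) : Set E5 :=
  {x | R < sg s * x j ∧ ∀ i, |x i| < R'}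

theorem Cj_open (R R' : ℝ) (j : Fin 5) (s : Bool) : IsOpen (Cj R R' j s) := by
  have h1 : IsOpen {x : E5 | R < sg s * x j} := isOpen_lt continuous_const (by fun_prop)
  have h2 : IsOpen {x : E5 | ∀ i, |x i| < R'} := by
    rw [ofPred_forall]
    exact isOpen_iInter_of_finite fun i => isOpen_lt (by fun_prop) continuous_const
  exact h1.inter h2

theorem Cj_convex (R R' : ℝ) (j : Fin 5) (s : Bool) : Convex ℝ (Cj R R' j s) := by
  have h1 : Convex ℝ {x : E5 | R < sg s * x j} :=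
    convex_halfSpace_gt ⟨fun x y => by simp [mul_add], fun c x => by simp; ring⟩ R
  have h2 : Convex ℝ {x : E5 | ∀ i, |x i| < R'} := by
    rw [ofPred_forall]
    refine convex_iInter fun i => ?_
    have : {x : E5 | |x i| < R'} = {x : E5 | x i < R'} ∩ {x : E5 | -R' < x i} := by
      ext x
      simp only [mem_ofPred_eq, mem_inter_iff, abs_lt]
      tauto
    rw [this]
    exact (convex_halfSpace_lt ⟨fun x y => by simp, fun c x => by simp⟩ R').inter
      (convex_halfSpace_gt ⟨fun x y => by simp, fun c x => by simp⟩ (-R'))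
  exact h1.inter h2

/-- a point with prescribed signs -/
noncomputable def pt (r : ℝ) (e : Fin 5 → Bool) : E5 := WithLp.toLp 2 fun i => sg (e i) * r

theorem pt_mem {R R' r : ℝ} (hR : 0 < R) (h1 : R < r) (h2 : r < R') (e : Fin 5 → Bool) (j : Fin 5)
    (s : Bool) (h : e j = s) : pt r e ∈ Cj R R' j s := by
  refine ⟨?_, fun i => ?_⟩
  · show R < sg s * (sg (e j) * r)
    rw [h, ← mul_assoc, sg_sq, one_mul]
    exact h1
  · show |sg (e i) * r| < R'
    have : |sg (e i) * r| = r := by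
      have hr : 0 < r := hR.trans h1
      cases e i <;> simp [sg, abs_of_pos hr]
    rw [this]
    exact h2

/-- the union of the pieces `C(i,+)`, `i ∈ A`, and `C(i,-)`, `i ∈ B` -/
def W (R R' : ℝ) (A B : Set (Fin 5)) : Set E5 :=
  {x | (∃ i ∈ A, x ∈ Cj R R' i true) ∨ (∃ i ∈ B, x ∈ Cj R R' i false)}

theorem W_open (R R' : ℝ) (A B : Set (Fin 5)) : IsOpen (W R R' A B) := by
  have : W R R' A B = (⋃ i ∈ A, Cj R R' i true) ∪ (⋃ i ∈ B, Cj R R' i false) := by
    ext x
    simp [W]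
  rw [this]
  exact (isOpen_biUnion fun i _ => Cj_open R R' i true).union
    (isOpen_biUnion fun i _ => Cj_open R R' i false)

theorem conn' {R R' : ℝ} (hR : 0 < R) (hR' : R < R') (j : Fin 5) (s : Bool) (A B : Set (Fin 5))
    (hA : ∀ i ∈ A, i ≠ j ∨ s = false) (hB : ∀ i ∈ B, i ≠ j)
    (hAB : ∀ i ∈ B, ∃ l ∈ A, l ≠ i ∧ l ≠ j) :
    IsPreconnected (W R R' A B ∩ Cj R R' j s) := by
  obtain ⟨r, hr1, hr2⟩ := exists_between hR'
  -- the base point: all signs +, except `s` in place `j`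
  refine isPreconnected_of_forall (pt r (Function.update (fun _ => true) j s)) ?_
  rintro y ⟨hyW, hyj⟩
  have key : ∀ i ∈ A, i ≠ j → ∀ y ∈ Cj R R' i true ∩ Cj R R' j s,
      ∃ t, t ⊆ W R R' A B ∩ Cj R R' j s ∧ pt r (Function.update (fun _ => true) j s) ∈ t ∧ y ∈ t ∧
        IsPreconnected t := by
    intro i hi hij y hy
    refine ⟨Cj R R' i true ∩ Cj R R' j s, ?_, ?_, hy, ?_⟩
    · exact inter_subset_inter_left _ fun z hz => Or.inl ⟨i, hi, hz⟩
    · exact ⟨pt_mem hR hr1 hr2 _ _ _ (by simp [Function.update_of_ne hij]),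
        pt_mem hR hr1 hr2 _ _ _ (by simp)⟩
    · exact ((Cj_convex R R' i true).inter (Cj_convex R R' j s)).isPreconnected
  rcases hyW with ⟨i, hi, hyi⟩ | ⟨i, hi, hyi⟩
  · by_cases hij : i = j
    · -- impossible: x j > R and x j < -R
      exfalso
      rcases hA i hi with h | h
      · exact h hij
      · subst h
        subst hij
        have h1 := hyi.1
        have h2 := hyj.1
        simp only [sg, if_true, one_mul, Bool.false_eq_true, if_false, neg_mul] at h1 h2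
        linarith
    · exact key i hi hij y ⟨hyi, hyj⟩
  · obtain ⟨l, hl, hli, hlj⟩ := hAB i hi
    have hij := hB i hi
    -- the piece C(i,-) ∩ C(j,s) meets C(l,+) ∩ C(j,s)
    have hq : pt r (Function.update (Function.update (fun _ => true) j s) i false) ∈
        (Cj R R' i false ∩ Cj R R' j s) ∩ (Cj R R' l true ∩ Cj R R' j s) := by
      have e1 : Function.update (Function.update (fun _ => true) j s) i false j = s := by
        rw [Function.update_of_ne hij.symm, Function.update_self]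
      refine ⟨⟨pt_mem hR hr1 hr2 _ _ _ (by simp), pt_mem hR hr1 hr2 _ _ _ e1⟩,
        pt_mem hR hr1 hr2 _ _ _ ?_, pt_mem hR hr1 hr2 _ _ _ e1⟩
      rw [Function.update_of_ne hli, Function.update_of_ne hlj]
    refine ⟨(Cj R R' i false ∩ Cj R R' j s) ∪ (Cj R R' l true ∩ Cj R R' j s), ?_, ?_,
      Or.inl ⟨hyi, hyj⟩, ?_⟩
    · rintro z (hz | hz)
      · exact ⟨Or.inr ⟨i, hi, hz.1⟩, hz.2⟩
      · exact ⟨Or.inl ⟨l, hl, hz.1⟩, hz.2⟩
    · exact Or.inr ⟨pt_mem hR hr1 hr2 _ _ _ (by simp [Function.update_of_ne hlj]),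
        pt_mem hR hr1 hr2 _ _ _ (by simp)⟩
    · exact IsPreconnected.union _ hq.1 hq.2
        ((Cj_convex R R' i false).inter (Cj_convex R R' j s)).isPreconnected
        ((Cj_convex R R' l true).inter (Cj_convex R R' j s)).isPreconnected

theorem t_SH (hCV : S_CV) : S_SH := by
  intro R R' b hR hR' hb
  have hpiece : ∀ j s, ∃ f : E5 → ℝ, ∀ x ∈ Cj R R' j s, Pr f b x := by
    intro j s
    refine hCV E5 (Cj R R' j s) b (Cj_open R R' j s) (Cj_convex R R' j s) ?_
    intro x hx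
    refine hb x ⟨j, ?_⟩ hx.2
    have h1 := hx.1
    cases s
    · simp only [sg, Bool.false_eq_true, if_false, neg_mul, one_mul] at h1
      exact lt_of_lt_of_le h1 (neg_le_abs _)
    · simp only [sg, if_true, one_mul] at h1
      exact lt_of_lt_of_le h1 (le_abs_self _)
  -- positive pieces
  have hpos : ∀ n : ℕ, n ≤ 5 → ∃ f : E5 → ℝ, ∀ x ∈ W R R' {i : Fin 5 | i.1 < n} ∅, Pr f b x := by
    intro n
    induction n with
    | zero =>
      intro _
      refine ⟨fun _ => 0, ?_⟩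
      rintro x (⟨i, hi, -⟩ | ⟨i, hi, -⟩)
      · exact absurd hi (Nat.not_lt_zero _)
      · exact absurd hi (notMem_empty _)
    | succ n ih =>
      intro hn
      have hc := conn' hR hR' ⟨n, hn⟩ true {i : Fin 5 | i.1 < n} ∅
        (fun i hi => Or.inl fun h => by subst h; exact lt_irrefl n hi)
        (fun i hi => absurd hi (notMem_empty _)) (fun i hi => absurd hi (notMem_empty _))
      obtain ⟨h, hh⟩ := mv (W_open R R' _ _) (Cj_open R R' _ _) hc (ih (by omega))
        (hpiece ⟨n, hn⟩ true)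
      refine ⟨h, fun x hx => hh x ?_⟩
      rcases hx with ⟨i, hi, hxi⟩ | ⟨i, hi, -⟩
      · rcases Nat.lt_succ_iff_lt_or_eq.1 hi with h1 | h1
        · exact Or.inl (Or.inl ⟨i, h1, hxi⟩)
        · right
          have : i = ⟨n, hn⟩ := Fin.ext h1
          rw [← this]
          exact hxi
      · exact absurd hi (notMem_empty _)
  have hneg : ∀ n : ℕ, n ≤ 5 → ∃ f : E5 → ℝ,
      ∀ x ∈ W R R' {i : Fin 5 | i.1 < 5} {i : Fin 5 | i.1 < n}, Pr f b x := by
    intro n
    induction n with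
    | zero =>
      intro _
      obtain ⟨f, hf⟩ := hpos 5 le_rfl
      refine ⟨f, fun x hx => hf x ?_⟩
      rcases hx with h | ⟨i, hi, -⟩
      · exact Or.inl h
      · exact absurd hi (Nat.not_lt_zero _)
    | succ n ih =>
      intro hn
      have hex : ∀ i j : Fin 5, ∃ l : Fin 5, l ≠ i ∧ l ≠ j := by decide
      have hc := conn' hR hR' ⟨n, hn⟩ false {i : Fin 5 | i.1 < 5} {i : Fin 5 | i.1 < n}
        (fun i hi => Or.inr rfl)
        (fun i hi h => by subst h; exact lt_irrefl n hi)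
        (fun i hi => by
          obtain ⟨l, h1, h2⟩ := hex i ⟨n, hn⟩
          exact ⟨l, l.2, h1, h2⟩)
      obtain ⟨h, hh⟩ := mv (W_open R R' _ _) (Cj_open R R' _ _) hc (ih (by omega))
        (hpiece ⟨n, hn⟩ false)
      refine ⟨h, fun x hx => hh x ?_⟩
      rcases hx with h1 | ⟨i, hi, hxi⟩
      · exact Or.inl (Or.inl h1)
      · rcases Nat.lt_succ_iff_lt_or_eq.1 hi with h1 | h1
        · exact Or.inl (Or.inr ⟨i, h1, hxi⟩)
        · right
          have : i = ⟨n, hn⟩ := Fin.ext h1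
          rw [← this]
          exact hxi
  obtain ⟨f, hf⟩ := hneg 5 le_rfl
  refine ⟨f, fun x hx hbox => hf x ?_⟩
  obtain ⟨i, hi⟩ := hx
  rcases lt_abs.1 hi with h | h
  · exact Or.inl ⟨i, i.2, by simpa [sg] using h, hbox⟩
  · exact Or.inr ⟨i, i.2, by simpa [sg] using h, hbox⟩

end Run7.h437.FL
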